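import Pool.Agent.Helper9.EQ.Data

/-!
# The check of the certificate by the kernel
-/

namespace Pool.Agent.Helper9.EQ

/-- the end point of an edge -/
def tT (i s : ℕ) : ℕ := (tab >>> (21 * (4 * i + s))) % 1024

/-- the time stamp of an edge -/
def tS (i s : ℕ) : ℕ := (tab >>> (21 * (4 * i + s) + 10)) % 2048

/-- the parent of a point -/
def tP (i : ℕ) : ℕ := (prs >>> (12 * i)) % 1024

/-- the letter from the parent -/
def tL (i : ℕ) : ℕ := (prs >>> (12 * i + 10)) % 4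

/-- the point of a deduction -/
def dI (n : ℕ) : ℕ := (ded >>> (21 * n)) % 1024

/-- the word of a deduction -/
def dK (n : ℕ) : ℕ := (ded >>> (21 * n + 10)) % 128

/-- the position of a deduction -/
def dR (n : ℕ) : ℕ := (ded >>> (21 * n + 17)) % 16

/-- the word with the given data -/
def wd (x : ℕ × ℕ × ℕ × List ℕ) : List ℕ :=
  match x.1 with
  | 0 => (x.2.1 :: (x.2.2.2.reverse ++ x.2.2.1 :: x.2.2.2)) ++ ((x.2.1 :: (x.2.2.2.reverse ++ x.2.2.1 :: x.2.2.2)) ++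
      ((x.2.1 :: (x.2.2.2.reverse ++ x.2.2.1 :: x.2.2.2)) ++ (x.2.1 :: (x.2.2.2.reverse ++ x.2.2.1 :: x.2.2.2))))
  | 1 => (0 :: (x.2.2.2.reverse ++ 0 :: x.2.2.2)) ++ (0 :: (x.2.2.2.reverse ++ 0 :: x.2.2.2))
  | 2 => (x.2.2.2.reverse ++ x.2.2.1 :: x.2.2.2) ++ 0 :: (x.2.2.2.reverse ++ x.2.2.1 :: x.2.2.2)
  | 3 => [0]
  | _ => [0, 1, 2, 3, 0, 1, 2, 3]

/-- the word number `k` -/
def Wk (k : ℕ) : List ℕ := wd (wds.getD k (3, 0, 0, []))

theorem chk_edges : allB (fun i => allB (fun s => edge tT tS tP tL Wk 64 dI dK dR i s) 4) 1024 = true := by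
  decide +kernel

theorem chk_par : allB (fun i => cond (Nat.beq i 0) true (Nat.blt (tP i) i)) 1024 = true := by
  decide +kernel

end Pool.Agent.Helper9.EQ
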