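import Mathlib

/-!
# Coset tables without coincidences: a checker and its soundness

A point `i` of the table stands for a conjugate `v i` of a fixed element `a` (so `v 0 = a`), an edge `(i, s)` for the relation
`v (T i s) = s⁻¹ (v i) s`. Every edge carries a time stamp `τ i s`; edges of stamp `0` are the edges of a spanning tree (they define `v`), an edge of
stamp `n > 0` is closed by a relator (or a word which commutes with `a`) all of whose other edges have a smaller stamp.
-/

namespace Pool.Agent.Helper9.EQ

variable {G : Type*} [Group G]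

/-- the value of a word -/
def ev (f : ℕ → G) (w : List ℕ) : G := (w.map f).prod

theorem ev_nil (f : ℕ → G) : ev f [] = 1 := rfl

theorem ev_cons (f : ℕ → G) (s : ℕ) (w : List ℕ) : ev f (s :: w) = f s * ev f w := by
  simp [ev]

theorem ev_append (f : ℕ → G) (u w : List ℕ) : ev f (u ++ w) = ev f u * ev f w := by
  simp [ev]

theorem ev_reverse (f : ℕ → G) (hf : ∀ s, f s * f s = 1) (w : List ℕ) : ev f w.reverse = (ev f w)⁻¹ := by
  induction w with
  | nil => simp [ev]
  | cons s w ih =>
    rw [List.reverse_cons, ev_append, ih, ev_cons, ev_cons, ev_nil, mul_one, mul_inv_rev]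
    rw [inv_eq_of_mul_eq_one_left (hf s)]

/-- the conjugate `g⁻¹ v g` -/
def cj (g v : G) : G := g⁻¹ * v * g

theorem cj_one (v : G) : cj 1 v = v := by simp [cj]

theorem cj_mul (g h v : G) : cj (g * h) v = cj h (cj g v) := by simp [cj, mul_assoc]

theorem cj_inv_cj (g v : G) : cj g⁻¹ (cj g v) = v := by simp [cj, mul_assoc]

theorem cj_cj_inv (g v : G) : cj g (cj g⁻¹ v) = v := by simp [cj, mul_assoc]

theorem cj_inj {g u v : G} (h : cj g u = cj g v) : u = v := by
  rw [← cj_inv_cj g u, h, cj_inv_cj]

/-- bounded quantifier as a Boolean, for the kernel -/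
noncomputable def allB (p : ℕ → Bool) (n : ℕ) : Bool := Nat.rec true (fun i acc => cond (p i) acc false) n

theorem allB_succ (p : ℕ → Bool) (n : ℕ) : allB p (n + 1) = cond (p n) (allB p n) false := rfl

theorem allB_spec {p : ℕ → Bool} {n : ℕ} (h : allB p n = true) : ∀ i < n, p i = true := by
  induction n with
  | zero => intro i hi; omega
  | succ n ih =>
    rw [allB_succ] at h
    intro i hi
    cases hp : p n with
    | false => rw [hp] at h; simp at h
    | true =>
      rw [hp] at h
      rcases Nat.lt_succ_iff_lt_or_eq.1 hi with h1 | h1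
      · exact ih h i h1
      · rw [h1, hp]

/-- trace the word `w` from `i` along edges of stamp `< n`; the end must be `e` -/
noncomputable def tr (T τ : ℕ → ℕ → ℕ) (n e : ℕ) (w : List ℕ) : ℕ → Bool :=
  List.rec (fun i => Nat.beq i e) (fun s _ ih i => cond (Nat.blt (τ i s) n) (ih (T i s)) false) w

theorem tr_nil (T τ : ℕ → ℕ → ℕ) (n e i : ℕ) : tr T τ n e [] i = Nat.beq i e := rfl

theorem tr_cons (T τ : ℕ → ℕ → ℕ) (n e s : ℕ) (w : List ℕ) (i : ℕ) :
    tr T τ n e (s :: w) i = cond (Nat.blt (τ i s) n) (tr T τ n e w (T i s)) false := rfl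

theorem tr_sound (f : ℕ → G) (T τ : ℕ → ℕ → ℕ) (N m : ℕ) (v : ℕ → G) (hT : ∀ i < N, ∀ s < m, T i s < N) (n e : ℕ)
    (hE : ∀ i < N, ∀ s < m, τ i s < n → cj (f s) (v i) = v (T i s)) :
    ∀ (w : List ℕ), (∀ s ∈ w, s < m) → ∀ i < N, tr T τ n e w i = true → cj (ev f w) (v i) = v e := by
  intro w
  induction w with
  | nil =>
    intro _ i _ h
    rw [tr_nil] at h
    rw [ev_nil, cj_one, Nat.eq_of_beq_eq_true h]
  | cons s w ih =>
    intro hw i hi h
    rw [tr_cons] at h
    cases hb : Nat.blt (τ i s) n with
    | false => rw [hb] at h; simp at h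
    | true =>
      rw [hb] at h
      have hs : s < m := hw s (by simp)
      have hlt : τ i s < n := by
        simpa [Nat.blt_eq] using hb
      rw [ev_cons, cj_mul, hE i hi s hs hlt]
      exact ih (fun t ht => hw t (by simp [ht])) (T i s) (hT i hi s hs) h

/-- a relator closes an edge -/
theorem close_rel (f : ℕ → G) (v : ℕ → G) (p q : List ℕ) (s i j : ℕ) (h1 : ev f (p ++ s :: q) = 1)
    (h2 : cj (ev f (q ++ p)) (v j) = v i) : cj (f s) (v i) = v j := by
  rw [ev_append, ev_cons] at h1
  have h3 : ev f (q ++ p) = (f s)⁻¹ := by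
    rw [ev_append, eq_inv_iff_mul_eq_one]
    have h4 : f s * (ev f q * ev f p) = 1 := by
      have h5 : f s * ev f q = (ev f p)⁻¹ := eq_inv_of_mul_eq_one_right h1
      rw [← mul_assoc, h5, inv_mul_cancel]
    exact mul_eq_one_iff_eq_inv.2 (eq_inv_of_mul_eq_one_right h4)
  rw [h3] at h2
  rw [← h2, cj_cj_inv]

/-- a word which commutes with the base point closes an edge -/
theorem close_base (f : ℕ → G) (v : ℕ → G) (p q : List ℕ) (s i j : ℕ) (h1 : cj (ev f (p ++ s :: q)) (v 0) = v 0)
    (h2 : cj (ev f q) (v j) = v 0) (h3 : cj (ev f p) (v 0) = v i) : cj (f s) (v i) = v j := by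
  rw [ev_append, ev_cons, cj_mul, cj_mul, h3] at h1
  exact cj_inj (h1.trans h2.symm)

/-- the points, defined along the tree -/
noncomputable def pt (f : ℕ → G) (a : G) (par lt : ℕ → ℕ) (j : ℕ) : G :=
  if _h : par j < j then cj (f (lt j)) (pt f a par lt (par j)) else a
termination_by j

theorem pt_zero (f : ℕ → G) (a : G) (par lt : ℕ → ℕ) : pt f a par lt 0 = a := by
  rw [pt, dif_neg (Nat.not_lt_zero _)]

theorem pt_pos (f : ℕ → G) (a : G) (par lt : ℕ → ℕ) {j : ℕ} (h : par j < j) :
    pt f a par lt j = cj (f (lt j)) (pt f a par lt (par j)) := by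
  rw [pt, dif_pos h]

/-- `(k, r)` closes the edge `(i, s)` with stamp `n`: for `k < nr` the word `W k` is a relator, else it commutes with the base point;
`r` is the position of the edge in the word -/
noncomputable def close (T τ : ℕ → ℕ → ℕ) (W : ℕ → List ℕ) (nr n i s k r : ℕ) : Bool :=
  cond (Nat.beq ((W k).getD r 4) s)
    (cond (Nat.blt k nr)
      (tr T τ n i ((W k).drop (r + 1) ++ (W k).take r) (T i s))
      (cond (tr T τ n 0 ((W k).drop (r + 1)) (T i s)) (tr T τ n i ((W k).take r) 0) false))
    false

theorem close_sound (f : ℕ → G) (T τ : ℕ → ℕ → ℕ) (N m : ℕ) (v : ℕ → G) (hT : ∀ i < N, ∀ s < m, T i s < N) (n : ℕ)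
    (hE : ∀ i < N, ∀ s < m, τ i s < n → cj (f s) (v i) = v (T i s)) (W : ℕ → List ℕ) (hW : ∀ k, ∀ s ∈ W k, s < m) (nr : ℕ)
    (hrel : ∀ k < nr, ev f (W k) = 1) (hbase : ∀ k, nr ≤ k → cj (ev f (W k)) (v 0) = v 0) (i s k r : ℕ) (hi : i < N) (hs : s < m)
    (h : close T τ W nr n i s k r = true) (hs4 : s < 4) : cj (f s) (v i) = v (T i s) := by
  unfold close at h
  have h1 : Nat.beq ((W k).getD r 4) s = true := by
    cases hb : Nat.beq ((W k).getD r 4) s with
    | false => rw [hb] at h; simp at h
    | true => rfl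
  rw [h1] at h
  simp only [cond_true] at h
  have h2 := Nat.eq_of_beq_eq_true h1
  have hr : r < (W k).length := by
    by_contra hr
    push Not at hr
    rw [List.getD_eq_default _ _ hr] at h2
    omega
  rw [List.getD_eq_getElem _ _ hr] at h2
  have h3 : W k = (W k).take r ++ s :: (W k).drop (r + 1) := by
    rw [← h2, List.cons_getElem_drop_succ, List.take_append_drop]
  have hp : ∀ t ∈ (W k).take r, t < m := fun t ht => hW k t (List.mem_of_mem_take ht)
  have hq : ∀ t ∈ (W k).drop (r + 1), t < m := fun t ht => hW k t (List.mem_of_mem_drop ht)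
  have hTi := hT i hi s hs
  have hN : 0 < N := by omega
  cases hb : Nat.blt k nr with
  | true =>
    rw [hb] at h
    simp only [cond_true] at h
    have hk : k < nr := by simpa [Nat.blt_eq] using hb
    have h4 := tr_sound f T τ N m v hT n i hE _ (by
      intro t ht
      rcases List.mem_append.1 ht with h5 | h5
      · exact hq t h5
      · exact hp t h5) (T i s) hTi h
    exact close_rel f v _ _ s i (T i s) (by rw [← h3]; exact hrel k hk) h4
  | false =>
    rw [hb] at h
    simp only [cond_false] at h
    have hk : nr ≤ k := by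
      by_contra hk
      push Not at hk
      have : Nat.blt k nr = true := by simpa [Nat.blt_eq] using hk
      rw [hb] at this
      simp at this
    cases hc : tr T τ n 0 ((W k).drop (r + 1)) (T i s) with
    | false => rw [hc] at h; simp at h
    | true =>
      rw [hc] at h
      simp only [cond_true] at h
      have h4 := tr_sound f T τ N m v hT n 0 hE _ hq (T i s) hTi hc
      have h5 := tr_sound f T τ N m v hT n i hE _ hp 0 hN h
      exact close_base f v _ _ s i (T i s) (by rw [← h3]; exact hbase k hk) h4 h5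

/-- the check of one edge -/
noncomputable def edge (T τ : ℕ → ℕ → ℕ) (par lt : ℕ → ℕ) (W : ℕ → List ℕ) (nr : ℕ) (di dk dr : ℕ → ℕ) (i s : ℕ) : Bool :=
  cond (Nat.beq (T (T i s) s) i)
    (cond (Nat.beq (τ i s) 0)
      (cond (cond (Nat.blt 0 (T i s)) (cond (Nat.beq (par (T i s)) i) (Nat.beq (lt (T i s)) s) false) false) true
        (cond (Nat.blt 0 i) (cond (Nat.beq (par i) (T i s)) (Nat.beq (lt i) s) false) false))
      (cond (Nat.beq (di (τ i s)) i) (close T τ W nr (τ i s) i s (dk (τ i s)) (dr (τ i s)))
        (cond (Nat.beq (di (τ i s)) (T i s)) (Nat.beq (τ (T i s) s) (τ i s)) false)))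
    false

theorem cond_and {x y : Bool} (h : cond x y false = true) : x = true ∧ y = true := by
  cases x
  · simp at h
  · exact ⟨rfl, h⟩

theorem edge_sound (f : ℕ → G) (hf : ∀ s, f s * f s = 1) (a : G) (T τ : ℕ → ℕ → ℕ) (par lt : ℕ → ℕ) (N : ℕ)
    (W : ℕ → List ℕ) (nr : ℕ) (di dk dr : ℕ → ℕ) (hT : ∀ i < N, ∀ s < 4, T i s < N)
    (hpar : ∀ j < N, 0 < j → par j < j) (hW : ∀ k, ∀ s ∈ W k, s < 4)
    (hrel : ∀ k < nr, ev f (W k) = 1) (hbase : ∀ k, nr ≤ k → cj (ev f (W k)) a = a)
    (h : ∀ i < N, ∀ s < 4, edge T τ par lt W nr di dk dr i s = true) :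
    ∀ n, ∀ i < N, ∀ s < 4, τ i s = n → cj (f s) (pt f a par lt i) = pt f a par lt (T i s) := by
  intro n
  induction n using Nat.strong_induction_on with
  | _ n ih =>
    have hinv : ∀ s, (f s)⁻¹ = f s := fun s => inv_eq_of_mul_eq_one_left (hf s)
    have hE : ∀ i < N, ∀ s < 4, τ i s < n → cj (f s) (pt f a par lt i) = pt f a par lt (T i s) :=
      fun i hi s hs hlt => ih (τ i s) hlt i hi s hs rfl
    have key : ∀ i < N, ∀ s < 4, τ i s = n → 0 < n → di n = i →
        cj (f s) (pt f a par lt i) = pt f a par lt (T i s) := by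
      intro i hi s hs hn hpos hdi
      obtain ⟨h1, h2⟩ := cond_and (h i hi s hs)
      have h3 : Nat.beq (τ i s) 0 = false := by
        cases hb : Nat.beq (τ i s) 0 with
        | false => rfl
        | true =>
          have := Nat.eq_of_beq_eq_true hb
          omega
      have h4 : Nat.beq (di (τ i s)) i = true := by
        rw [hn, hdi]
        exact Nat.beq_refl i
      rw [h3] at h2
      simp only [cond_false] at h2
      rw [h4] at h2
      simp only [cond_true] at h2
      rw [hn] at h2
      exact close_sound f T τ N 4 _ hT n hE W hW nr hrel (by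
        intro k hk
        rw [pt_zero]
        exact hbase k hk) i s _ _ hi hs h2 hs
    intro i hi s hs hn
    obtain ⟨h1, h2⟩ := cond_and (h i hi s hs)
    have h1' := Nat.eq_of_beq_eq_true h1
    cases hb : Nat.beq (τ i s) 0 with
    | true =>
      rw [hb] at h2
      simp only [cond_true] at h2
      cases hc : cond (Nat.blt 0 (T i s)) (cond (Nat.beq (par (T i s)) i) (Nat.beq (lt (T i s)) s) false) false with
      | true =>
        obtain ⟨h3, h4⟩ := cond_and hc
        obtain ⟨h4, h5⟩ := cond_and h4
        have h3' : 0 < T i s := by simpa [Nat.blt_eq] using h3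
        have h4' := Nat.eq_of_beq_eq_true h4
        have h5' := Nat.eq_of_beq_eq_true h5
        rw [pt_pos f a par lt (hpar (T i s) (hT i hi s hs) h3'), h4', h5']
      | false =>
        rw [hc] at h2
        simp only [cond_false] at h2
        obtain ⟨h3, h4⟩ := cond_and h2
        obtain ⟨h4, h5⟩ := cond_and h4
        have h3' : 0 < i := by simpa [Nat.blt_eq] using h3
        have h4' := Nat.eq_of_beq_eq_true h4
        have h5' := Nat.eq_of_beq_eq_true h5
        have h6 := pt_pos f a par lt (hpar i hi h3')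
        rw [h4', h5'] at h6
        rw [h6]
        have h7 := cj_inv_cj (f s) (pt f a par lt (T i s))
        rw [hinv s] at h7
        exact h7
    | false =>
      have hpos : 0 < n := by
        rcases Nat.eq_zero_or_pos n with h0 | h0
        · rw [hn, h0] at hb
          simp at hb
        · exact h0
      rw [hb] at h2
      simp only [cond_false] at h2
      cases hd : Nat.beq (di (τ i s)) i with
      | true =>
        have := Nat.eq_of_beq_eq_true hd
        rw [hn] at this
        exact key i hi s hs hn hpos this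
      | false =>
        rw [hd] at h2
        simp only [cond_false] at h2
        obtain ⟨h3, h4⟩ := cond_and h2
        have h3' := Nat.eq_of_beq_eq_true h3
        have h4' := Nat.eq_of_beq_eq_true h4
        rw [hn] at h3' h4'
        have h5 := key (T i s) (hT i hi s hs) s hs h4' hpos h3'
        rw [h1'] at h5
        rw [← h5]
        have h7 := cj_inv_cj (f s) (pt f a par lt (T i s))
        rw [hinv s] at h7
        exact h7

end Pool.Agent.Helper9.EQ
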