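import Pool.Agent.Helper9.EQ.Core

/-!
# Finite normal sets of involutions
-/

namespace Pool.Agent.Helper9.EQ

variable {G : Type*} [Group G]

theorem cj_mem_of_gen (X S : Set G) (hinv : ∀ x ∈ X, x * x = 1) (hS : ∀ x ∈ X, ∀ v ∈ S, cj x v ∈ S) :
    ∀ g ∈ Subgroup.closure X, ∀ v ∈ S, cj g v ∈ S ∧ cj g⁻¹ v ∈ S := by
  intro g hg
  induction hg using Subgroup.closure_induction with
  | mem x hx =>
    intro v hv
    have h1 : x⁻¹ = x := inv_eq_of_mul_eq_one_left (hinv x hx)
    rw [h1]
    exact ⟨hS x hx v hv, hS x hx v hv⟩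
  | one =>
    intro v hv
    rw [inv_one, cj_one]
    exact ⟨hv, hv⟩
  | mul x y _ _ hx hy =>
    intro v hv
    refine ⟨?_, ?_⟩
    · rw [cj_mul]
      exact (hy _ (hx v hv).1).1
    · rw [mul_inv_rev, cj_mul]
      exact (hx _ (hy v hv).2).2
  | inv x _ hx =>
    intro v hv
    rw [inv_inv]
    exact ⟨(hx v hv).2, (hx v hv).1⟩

theorem index_centralizer (K : Type*) [Group K] (x : K) (hfin : {y : K | ∃ g : K, y = cj g x}.Finite) :
    (Subgroup.centralizer ({x} : Set K)).FiniteIndex := by
  have hf : Finite {y : K | ∃ g : K, y = cj g x} := hfin.to_subtype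
  obtain ⟨φ, hφ⟩ : ∃ φ : K ⧸ Subgroup.centralizer ({x} : Set K) → {y : K | ∃ g : K, y = cj g x},
      ∀ q, (φ q : K) = cj (q.out)⁻¹ x := ⟨fun q => ⟨cj (q.out)⁻¹ x, ⟨_, rfl⟩⟩, fun q => rfl⟩
  have hinj : Function.Injective φ := by
    intro p q hpq
    have h1 : cj (p.out)⁻¹ x = cj (q.out)⁻¹ x := by rw [← hφ, ← hφ, hpq]
    rw [← QuotientGroup.out_eq' p, ← QuotientGroup.out_eq' q, QuotientGroup.eq, Subgroup.mem_centralizer_singleton_iff]
    simp only [cj, inv_inv] at h1
    have h2 : (p.out)⁻¹ * q.out * x = x * ((p.out)⁻¹ * q.out) := by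
      have h3 : (p.out)⁻¹ * (q.out * x * (q.out)⁻¹) * q.out = (p.out)⁻¹ * (p.out * x * (p.out)⁻¹) * q.out := by rw [h1]
      simpa [mul_assoc] using h3
    exact h2
  have hfq : Finite (K ⧸ Subgroup.centralizer ({x} : Set K)) := Finite.of_injective φ hinj
  exact Subgroup.finiteIndex_of_finite_quotient

/-- a group generated by finitely many involutions, each with finitely many conjugates, is finite -/
theorem finite_of_conj (K : Type*) [Group K] (X : Set K) (hX : X.Finite) (hgen : Subgroup.closure X = ⊤)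
    (hinv : ∀ x ∈ X, x * x = 1) (hfin : ∀ x ∈ X, {y : K | ∃ g : K, y = cj g x}.Finite) : Finite K := by
  classical
  have hXf : Finite X := hX.to_subtype
  have h2 : (⨅ x : X, Subgroup.centralizer ({(x : K)} : Set K)).FiniteIndex :=
    Subgroup.finiteIndex_iInf (fun x => index_centralizer K x (hfin x x.2))
  have h3 : (⨅ x : X, Subgroup.centralizer ({(x : K)} : Set K)) ≤ Subgroup.center K := by
    intro g hg
    rw [Subgroup.mem_iInf] at hg
    have h4 : Subgroup.closure X ≤ Subgroup.centralizer ({g} : Set K) := by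
      rw [Subgroup.closure_le]
      intro x hx
      have h5 := hg ⟨x, hx⟩
      rw [Subgroup.mem_centralizer_singleton_iff] at h5
      change x ∈ Subgroup.centralizer ({g} : Set K)
      rw [Subgroup.mem_centralizer_singleton_iff]
      exact h5.symm
    rw [Subgroup.mem_center_iff]
    intro k
    have h6 : k ∈ Subgroup.centralizer ({g} : Set K) := h4 (by rw [hgen]; trivial)
    rw [Subgroup.mem_centralizer_singleton_iff] at h6
    exact h6
  have hC : (Subgroup.center K).FiniteIndex := Subgroup.finiteIndex_of_le h3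
  have hfg : Group.FG K := by
    rw [Group.fg_iff]
    exact ⟨X, hgen, hX⟩
  have hcom : ∀ u v : Subgroup.center K, u * v = v * u := by
    intro u v
    apply Subtype.ext
    exact Subgroup.mem_center_iff.1 v.2 u
  have hsq : ∀ g : K, (MonoidHom.transferCenterPow K g) * (MonoidHom.transferCenterPow K g) = 1 := by
    intro g
    have hg : g ∈ Subgroup.closure X := by rw [hgen]; trivial
    induction hg using Subgroup.closure_induction with
    | mem x hx => rw [← map_mul, hinv x hx, map_one]
    | one => simp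
    | mul x y _ _ hx hy =>
      rw [map_mul]
      have h7 : ∀ u v : Subgroup.center K, u * v * (u * v) = (u * u) * (v * v) := by
        intro u v
        rw [mul_assoc, ← mul_assoc v u v, hcom v u]
        simp only [mul_assoc]
      rw [h7, hx, hy, one_mul]
    | inv x _ hx =>
      rw [map_inv, ← mul_inv_rev, hx, inv_one]
  have htor : ∀ g : Subgroup.center K, g ^ ((Subgroup.center K).index * 2) = 1 := by
    intro g
    have h8 := hsq (g : K)
    apply Subtype.ext
    rw [pow_mul, pow_two]
    have h9 := congrArg Subtype.val h8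
    simpa using h9
  have hidx : (Subgroup.center K).index ≠ 0 := hC.index_ne_zero
  have hfgC : Group.FG (Subgroup.center K) := inferInstance
  have hCfin : Finite (Subgroup.center K) := by
    let _ : CommGroup (Subgroup.center K) := { (inferInstance : Group (Subgroup.center K)) with mul_comm := hcom }
    refine CommGroup.finite_of_fg_isMulTorsion (Subgroup.center K) ?_
    intro g
    exact isOfFinOrder_iff_pow_eq_one.2 ⟨_, by positivity, htor g⟩
  exact (Subgroup.finite_iff_finite_and_finiteIndex (Subgroup.center K)).2 ⟨hCfin, hC⟩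

/-- the same for a subgroup generated by finitely many involutions -/
theorem finite_closure (X : Set G) (hX : X.Finite) (hinv : ∀ x ∈ X, x * x = 1)
    (hfin : ∀ x ∈ X, ∃ S : Set G, S.Finite ∧ x ∈ S ∧ ∀ y ∈ X, ∀ v ∈ S, cj y v ∈ S) : Finite (Subgroup.closure X) := by
  obtain ⟨Y, hY⟩ : ∃ Y : Set (Subgroup.closure X), Y = (Subgroup.closure X).subtype ⁻¹' X := ⟨_, rfl⟩
  refine finite_of_conj (Subgroup.closure X) Y ?_ ?_ ?_ ?_
  · rw [hY]
    exact hX.preimage (Set.injOn_of_injective Subtype.val_injective)
  · rw [hY]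
    exact Subgroup.closure_closure_coe_preimage
  · intro x hx
    rw [hY] at hx
    exact Subtype.ext (hinv x hx)
  · intro x hx
    rw [hY] at hx
    obtain ⟨S, hSf, hxS, hS⟩ := hfin x hx
    refine (hSf.preimage (Set.injOn_of_injective (Subtype.val_injective (p := fun y => y ∈ Subgroup.closure X)))).subset ?_
    rintro y ⟨g, rfl⟩
    exact (cj_mem_of_gen X S hinv hS g g.2 x hxS).1

end Pool.Agent.Helper9.EQ
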