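import Pool.Agent.Helper9.EQ.Four

/-!
# Left 3-Engel involutions: four conjugates with `(abcd)² = 1`, and `⟨x, g⟩` for `g⁴ = (xg)⁸ = 1`
-/

namespace Pool.Agent.Helper9.EQ

variable {G : Type*} [Group G]

/-- the commutator `a⁻¹ b⁻¹ a b` -/
def cm (a b : G) : G := a⁻¹ * b⁻¹ * a * b

/-- for a left 3-Engel involution the product of two conjugates has order dividing `4` -/
theorem law_of_engel (x : G) (hx : x ^ 2 = 1) (hE : ∀ g : G, cm (cm (cm g x) x) x = 1) (p q : G) :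
    ((p⁻¹ * x * p) * (q⁻¹ * x * q)) ^ 4 = 1 := by
  have hxx : x * x = 1 := by rw [← pow_two]; exact hx
  have hxi : x⁻¹ = x := inv_eq_of_mul_eq_one_left hxx
  have key : ∀ g : G, (g⁻¹ * x * g * x) ^ 4 = 1 := by
    intro g
    have h1 := hE g
    obtain ⟨y, hy⟩ : ∃ y, y = g⁻¹ * x * g := ⟨_, rfl⟩
    have hyy : y * y = 1 := by
      rw [hy]
      have : g⁻¹ * x * g * (g⁻¹ * x * g) = g⁻¹ * (x * x) * g := by group
      rw [this, hxx]
      group
    have hyi : y⁻¹ = y := inv_eq_of_mul_eq_one_left hyy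
    have e1 : cm g x = y * x := by rw [cm, hxi, hy]
    have e2 : cm (y * x) x = x * y * (x * y) := by
      rw [cm, mul_inv_rev, hxi, hyi]
      have : x * y * x * (y * x) * x = x * y * (x * y) * (x * x) := by simp only [mul_assoc]
      rw [this, hxx, mul_one]
    have e3 : cm (x * y * (x * y)) x = (y * x) ^ 4 := by
      have hxz : ∀ z : G, x * (x * z) = z := by
        intro z
        rw [← mul_assoc, hxx, one_mul]
      rw [cm, mul_inv_rev, mul_inv_rev, hxi, hyi]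
      simp only [pow_succ, pow_zero, one_mul, mul_assoc, hxz]
    rw [e1, e2, e3] at h1
    rw [← hy]
    exact h1
  have h2 := key (p * q⁻¹)
  have h3 : (p⁻¹ * x * p) * (q⁻¹ * x * q) = q⁻¹ * ((p * q⁻¹)⁻¹ * x * (p * q⁻¹) * x) * q := by group
  have h4 : ∀ u v : G, (v⁻¹ * u * v) ^ 4 = v⁻¹ * u ^ 4 * v := by
    intro u v
    simp only [pow_succ, pow_zero, one_mul]
    group
  rw [h3, h4, h2]
  group

/-- four conjugates `a, b, c, d` of a left 3-Engel involution with `(abcd)² = 1` generate a finite group -/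
theorem four_engel (x : G) (hx : x ^ 2 = 1) (hE : ∀ g : G, cm (cm (cm g x) x) x = 1) (p q r s : G)
    (hQ : (p⁻¹ * x * p * (q⁻¹ * x * q) * (r⁻¹ * x * r) * (s⁻¹ * x * s)) ^ 2 = 1) :
    Finite (Subgroup.closure ({p⁻¹ * x * p, q⁻¹ * x * q, r⁻¹ * x * r, s⁻¹ * x * s} : Set G)) := by
  have hsq : ∀ p : G, (p⁻¹ * x * p) ^ 2 = 1 := by
    intro p
    have : (p⁻¹ * x * p) ^ 2 = p⁻¹ * x ^ 2 * p := by
      simp only [pow_two]
      group
    rw [this, hx]
    group
  refine four_finite _ _ _ _ (hsq p) (hsq q) (hsq r) (hsq s) hQ ?_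
  have hall : ∀ y ∈ ({p⁻¹ * x * p, q⁻¹ * x * q, r⁻¹ * x * r, s⁻¹ * x * s} : Set G), ∃ h : G, y = h⁻¹ * x * h := by
    rintro y (rfl | rfl | rfl | rfl)
    exacts [⟨p, rfl⟩, ⟨q, rfl⟩, ⟨r, rfl⟩, ⟨s, rfl⟩]
  intro y hy z hz g
  obtain ⟨h, rfl⟩ := hall y hy
  obtain ⟨k, rfl⟩ := hall z hz
  have h1 := law_of_engel x hx hE h (k * g)
  have h2 : g⁻¹ * (k⁻¹ * x * k) * g = (k * g)⁻¹ * x * (k * g) := by group
  rw [h2]
  exact h1

/-- if `x` is a left 3-Engel involution and `g⁴ = (xg)⁸ = 1` then `⟨x, g⟩` is finite -/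
theorem pair_engel (x : G) (hx : x ^ 2 = 1) (hE : ∀ g : G, cm (cm (cm g x) x) x = 1) (g : G) (hg : g ^ 4 = 1)
    (hxg : (x * g) ^ 8 = 1) : Finite (Subgroup.closure ({x, g} : Set G)) := by
  obtain ⟨y, hy⟩ : ∃ y : ℕ → G, ∀ i, y i = (g ^ i)⁻¹ * x * g ^ i := ⟨fun i => (g ^ i)⁻¹ * x * g ^ i, fun i => rfl⟩
  have hg3 : g⁻¹ = g ^ 3 := by
    rw [inv_eq_iff_mul_eq_one, ← pow_succ', hg]
  have hcyc : cj g (y 3) = y 0 := by
    rw [hy, hy, cj]
    have h1 : g⁻¹ * ((g ^ 3)⁻¹ * x * g ^ 3) * g = (g ^ 4)⁻¹ * x * g ^ 4 := by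
      simp only [pow_succ, pow_zero, one_mul, mul_inv_rev, mul_assoc]
    rw [h1, hg, pow_zero]
  have hstep : ∀ i, cj g (y i) = y (i + 1) := by
    intro i
    rw [hy, hy, cj, pow_succ]
    simp only [mul_inv_rev, mul_assoc]
  have hprod : y 0 * y 3 * y 2 * y 1 = (x * g) ^ 4 := by
    rw [hy, hy, hy, hy]
    have h1 : (g ^ 0)⁻¹ * x * g ^ 0 * ((g ^ 3)⁻¹ * x * g ^ 3) * ((g ^ 2)⁻¹ * x * g ^ 2) * ((g ^ 1)⁻¹ * x * g ^ 1)
        = x * (g ^ 3)⁻¹ * x * g * x * g * x * g := by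
      simp only [pow_succ, pow_zero, one_mul, mul_inv_rev, inv_one, mul_one]
      group
    rw [h1, ← hg3, inv_inv]
    simp only [pow_succ, pow_zero, one_mul, mul_assoc]
  have hQ : (y 0 * y 3 * y 2 * y 1) ^ 2 = 1 := by
    rw [hprod, ← pow_mul]
    exact hxg
  obtain ⟨N, hN⟩ : ∃ N : Subgroup G, N = Subgroup.closure ({y 0, y 3, y 2, y 1} : Set G) := ⟨_, rfl⟩
  have hNfin : Finite N := by
    rw [hN]
    simp only [hy] at hQ ⊢
    exact four_engel x hx hE _ _ _ _ hQ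
  have hNg : ∀ n ∈ N, cj g n ∈ N := by
    intro n hn
    rw [hN] at hn ⊢
    induction hn using Subgroup.closure_induction with
    | mem z hz =>
      apply Subgroup.subset_closure
      rcases hz with rfl | rfl | rfl | rfl
      · rw [hstep 0]
        simp
      · rw [hcyc]
        simp
      · rw [hstep 2]
        simp
      · rw [hstep 1]
        simp
    | one => simp [cj]
    | mul u v _ _ hu hv =>
      have : cj g (u * v) = cj g u * cj g v := by
        simp only [cj]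
        group
      rw [this]
      exact Subgroup.mul_mem _ hu hv
    | inv u _ hu =>
      have : cj g u⁻¹ = (cj g u)⁻¹ := by
        simp only [cj]
        group
      rw [this]
      exact Subgroup.inv_mem _ hu
  have hNgi : ∀ i : ℕ, ∀ n ∈ N, cj (g ^ i) n ∈ N := by
    intro i
    induction i with
    | zero =>
      intro n hn
      rw [pow_zero, cj_one]
      exact hn
    | succ i ih =>
      intro n hn
      rw [pow_succ, cj_mul]
      exact hNg _ (ih n hn)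
  have hmod : ∀ i : ℕ, g ^ i = g ^ (i % 4) := by
    intro i
    conv_lhs => rw [← Nat.div_add_mod i 4, pow_add, pow_mul, hg, one_pow, one_mul]
  obtain ⟨S, hS⟩ : ∃ S : Set G, S = {z | ∃ n ∈ N, ∃ i < 4, z = g ^ i * n} := ⟨_, rfl⟩
  have hSfin : S.Finite := by
    have hNf : (N : Set G).Finite := hNfin
    have h1 : S ⊆ (fun z : ℕ × G => g ^ z.1 * z.2) '' ((Set.Iio 4) ×ˢ (N : Set G)) := by
      rintro z hz
      rw [hS] at hz
      obtain ⟨n, hn, i, hi, rfl⟩ := hz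
      exact ⟨(i, n), ⟨hi, hn⟩, rfl⟩
    exact (((Set.finite_Iio 4).prod hNf).image _).subset h1
  have hSmul : ∀ z ∈ S, z * x ∈ S ∧ z * g ∈ S ∧ z * g⁻¹ ∈ S := by
    intro z hz
    rw [hS] at hz ⊢
    obtain ⟨n, hn, i, hi, rfl⟩ := hz
    refine ⟨⟨n * x, N.mul_mem hn ?_, i, hi, by rw [mul_assoc]⟩, ?_, ?_⟩
    · rw [hN]
      apply Subgroup.subset_closure
      have : x = y 0 := by rw [hy]; simp
      rw [this]
      simp
    · refine ⟨cj g n, hNg n hn, (i + 1) % 4, Nat.mod_lt _ (by norm_num), ?_⟩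
      rw [← hmod, pow_succ, cj]
      group
    · refine ⟨cj (g ^ 3) n, hNgi 3 n hn, (i + 3) % 4, Nat.mod_lt _ (by norm_num), ?_⟩
      rw [← hmod, pow_add, hg3, cj]
      group
  have hsub : ((Subgroup.closure ({x, g} : Set G) : Subgroup G) : Set G) ⊆ S := by
    intro z hz
    have hxi : x⁻¹ = x := inv_eq_of_mul_eq_one_left (by rw [← pow_two]; exact hx)
    refine Subgroup.closure_induction_right (p := fun z _ => z ∈ S) ?_ ?_ ?_ hz
    · rw [hS]
      exact ⟨1, N.one_mem, 0, by norm_num, by simp⟩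
    · intro z _ w hw hzS
      rcases hw with rfl | rfl
      · exact (hSmul z hzS).1
      · exact (hSmul z hzS).2.1
    · intro z _ w hw hzS
      rcases hw with rfl | rfl
      · rw [hxi]
        exact (hSmul z hzS).1
      · exact (hSmul z hzS).2.2
  exact (hSfin.subset hsub).to_subtype

end Pool.Agent.Helper9.EQ
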