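import Pool.Agent.Helper9.EQ.Check
import Pool.Agent.Helper9.EQ.Diet

/-!
# Four involutions `a, b, c, d` with `(abcd)² = 1` whose conjugates have products of order at most `4`
-/

namespace Pool.Agent.Helper9.EQ

variable {G : Type*} [Group G]

/-- the four letters -/
def f4 (a b c d : G) (s : ℕ) : G :=
  match s with
  | 0 => a
  | 1 => b
  | 2 => c
  | _ => d

theorem tT_lt (i s : ℕ) : tT i s < 1024 := Nat.mod_lt _ (by norm_num)

theorem tP_lt : ∀ j < 1024, 0 < j → tP j < j := by
  intro j hj hpos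
  have h := allB_spec chk_par j hj
  have h0 : Nat.beq j 0 = false := by
    cases hb : Nat.beq j 0 with
    | false => rfl
    | true =>
      have := Nat.eq_of_beq_eq_true hb
      omega
  simp only [h0, cond_false] at h
  simpa [Nat.blt_eq] using h

theorem edge_all : ∀ i < 1024, ∀ s < 4, edge tT tS tP tL Wk 64 dI dK dR i s = true :=
  fun i hi s hs => allB_spec (allB_spec chk_edges i hi) s hs

theorem wds_letters : ∀ x ∈ wds, x.2.1 < 4 ∧ x.2.2.1 < 4 ∧ ∀ s ∈ x.2.2.2, s < 4 := by
  decide +kernel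

theorem wds_rel : ∀ k < 64, (wds.getD k (3, 0, 0, [])).1 = 0 ∨ (wds.getD k (3, 0, 0, [])).1 = 4 := by
  decide +kernel

theorem wds_base : ∀ x ∈ wds.drop 64, x.1 = 1 ∨ x.1 = 2 ∨ x.1 = 3 := by
  decide +kernel

theorem wds_len : wds.length = 97 := by
  decide +kernel

theorem wd_letters (x : ℕ × ℕ × ℕ × List ℕ) (h1 : x.2.1 < 4) (h2 : x.2.2.1 < 4) (h3 : ∀ s ∈ x.2.2.2, s < 4) :
    ∀ s ∈ wd x, s < 4 := by
  intro s hs
  unfold wd at hs
  split at hs
  · simp only [List.mem_append, List.mem_cons, List.mem_reverse] at hs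
    rcases hs with hs | hs | hs | hs
    all_goals
      rcases hs with rfl | hs | rfl | hs
      · exact h1
      · exact h3 s hs
      · exact h2
      · exact h3 s hs
  · simp only [List.mem_append, List.mem_cons, List.mem_reverse] at hs
    rcases hs with hs | hs
    all_goals
      rcases hs with rfl | hs | rfl | hs
      · norm_num
      · exact h3 s hs
      · norm_num
      · exact h3 s hs
  · simp only [List.mem_append, List.mem_cons, List.mem_reverse] at hs
    rcases hs with (hs | rfl | hs) | rfl | hs | rfl | hs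
    · exact h3 s hs
    · exact h2
    · exact h3 s hs
    · norm_num
    · exact h3 s hs
    · exact h2
    · exact h3 s hs
  · simp only [List.mem_singleton] at hs
    omega
  · simp only [List.mem_cons, List.not_mem_nil, or_false] at hs
    omega

theorem Wk_letters (k : ℕ) : ∀ s ∈ Wk k, s < 4 := by
  rcases lt_or_ge k wds.length with hk | hk
  · have hx := wds_letters (wds.getD k (3, 0, 0, [])) (by
      rw [List.getD_eq_getElem _ _ hk]
      exact List.getElem_mem hk)
    exact wd_letters _ hx.1 hx.2.1 hx.2.2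
  · intro s hs
    rw [Wk, List.getD_eq_default _ _ hk] at hs
    simp [wd] at hs
    omega

theorem four_pow {x : G} (h : x ^ 4 = 1) : x * (x * (x * x)) = 1 := by
  rw [← h]
  simp only [pow_succ, pow_zero, one_mul, mul_assoc]

/-- the law -/
def Law (f : ℕ → G) : Prop := ∀ s t : ℕ, ∀ g : G, (f s * (g⁻¹ * f t * g)) ^ 4 = 1

theorem ev_rel (f : ℕ → G) (hf : ∀ s, f s * f s = 1) (hD : Law f) (hQ : (f 0 * f 1 * f 2 * f 3) ^ 2 = 1)
    (x : ℕ × ℕ × ℕ × List ℕ) (hx : x.1 = 0 ∨ x.1 = 4) : ev f (wd x) = 1 := by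
  rcases hx with hx | hx
  · unfold wd
    rw [hx]
    simp only [ev_append, ev_cons, ev_reverse f hf]
    have h1 := four_pow (hD x.2.1 x.2.2.1 (ev f x.2.2.2))
    rw [← h1]
    simp only [mul_assoc]
  · unfold wd
    rw [hx]
    simp only [ev_cons, ev_nil, mul_one]
    rw [← hQ, pow_two]
    simp only [mul_assoc]

theorem comm_of_pow {a P : G} (ha : a * a = 1) (hP : P * P = 1) (h : (a * P) ^ 4 = 1) :
    cj (P * a * P) a = a := by
  have h1 : P⁻¹ = P := inv_eq_of_mul_eq_one_left hP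
  have h2 : a⁻¹ = a := inv_eq_of_mul_eq_one_left ha
  have h3 := four_pow h
  unfold cj
  rw [mul_inv_rev, mul_inv_rev, h1, h2]
  have h4 : a * (P * (a * P) * a * (P * a * P)) = 1 := by
    rw [← h3]
    simp only [mul_assoc]
  have h5 := eq_inv_of_mul_eq_one_right h4
  rw [h2] at h5
  exact h5

theorem comm_of_pow' {a P : G} (ha : a * a = 1) (hP : P * P = 1) (h : (a * P) ^ 4 = 1) :
    cj (a * P * (a * P)) a = a := by
  have h1 : a * P * (a * P) = a * (P * a * P) := by simp only [mul_assoc]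
  rw [h1, cj_mul]
  have h2 : cj a a = a := by simp [cj]
  rw [h2, comm_of_pow ha hP h]

theorem ev_base (f : ℕ → G) (hf : ∀ s, f s * f s = 1) (hD : Law f)
    (x : ℕ × ℕ × ℕ × List ℕ) (hx : x.1 = 1 ∨ x.1 = 2 ∨ x.1 = 3) : cj (ev f (wd x)) (f 0) = f 0 := by
  have hsq : ∀ t (g : G), (g⁻¹ * f t * g) * (g⁻¹ * f t * g) = 1 := by
    intro t g
    have : (g⁻¹ * f t * g) * (g⁻¹ * f t * g) = g⁻¹ * (f t * f t) * g := by group
    rw [this, hf t]
    group
  rcases hx with hx | hx | hx
  · unfold wd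
    rw [hx]
    simp only [ev_append, ev_cons, ev_reverse f hf]
    have h1 := comm_of_pow' (hf 0) (hsq 0 (ev f x.2.2.2)) (hD 0 0 (ev f x.2.2.2))
    simp only [mul_assoc] at h1 ⊢
    exact h1
  · unfold wd
    rw [hx]
    simp only [ev_append, ev_cons, ev_reverse f hf]
    have h1 := comm_of_pow (hf 0) (hsq x.2.2.1 (ev f x.2.2.2)) (hD 0 x.2.2.1 (ev f x.2.2.2))
    simp only [mul_assoc] at h1 ⊢
    exact h1
  · unfold wd
    rw [hx]
    simp only [ev_cons, ev_nil, mul_one]
    simp [cj]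

/-- the class of `a` is finite -/
theorem class_finite (f : ℕ → G) (hf : ∀ s, f s * f s = 1) (hD : Law f) (hQ : (f 0 * f 1 * f 2 * f 3) ^ 2 = 1) :
    ∃ S : Set G, S.Finite ∧ S.ncard ≤ 1024 ∧ f 0 ∈ S ∧ ∀ s < 4, ∀ v ∈ S, cj (f s) v ∈ S := by
  have hrel : ∀ k < 64, ev f (Wk k) = 1 := fun k hk => ev_rel f hf hD hQ _ (wds_rel k hk)
  have hbase : ∀ k, 64 ≤ k → cj (ev f (Wk k)) (f 0) = f 0 := by
    intro k hk
    rcases lt_or_ge k wds.length with hk1 | hk1
    · refine ev_base f hf hD _ (wds_base _ ?_)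
      rw [List.getD_eq_getElem _ _ hk1]
      rw [List.mem_iff_getElem]
      refine ⟨k - 64, ?_, ?_⟩
      · rw [List.length_drop]
        omega
      · rw [List.getElem_drop]
        congr 1
        omega
    · rw [Wk, List.getD_eq_default _ _ hk1]
      exact ev_base f hf hD _ (Or.inr (Or.inr rfl))
  have key := edge_sound f hf (f 0) tT tS tP tL 1024 Wk 64 dI dK dR (fun i _ s _ => tT_lt i s) tP_lt Wk_letters hrel hbase edge_all
  obtain ⟨S, hS⟩ : ∃ S : Set G, S = (pt f (f 0) tP tL) '' (Set.Iio 1024) := ⟨_, rfl⟩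
  refine ⟨S, ?_, ?_, ?_, ?_⟩
  · rw [hS]
    exact (Set.finite_Iio 1024).image _
  · rw [hS]
    refine (Set.ncard_image_le (Set.finite_Iio 1024)).trans ?_
    rw [← Finset.coe_Iio, Set.ncard_coe_finset]
    simp
  · rw [hS]
    exact ⟨0, by norm_num, pt_zero _ _ _ _⟩
  · intro s hs v hv
    rw [hS] at hv ⊢
    obtain ⟨i, hi, rfl⟩ := hv
    rw [key (tS i s) i hi s hs rfl]
    exact ⟨tT i s, tT_lt i s, rfl⟩

/-- four involutions `a, b, c, d` with `(abcd)² = 1` such that for all `s, t` among them and all `g` the order of `s t^g` divides `4` generate a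
finite group -/
theorem four_finite (a b c d : G) (ha : a ^ 2 = 1) (hb : b ^ 2 = 1) (hc : c ^ 2 = 1) (hd : d ^ 2 = 1)
    (hQ : (a * b * c * d) ^ 2 = 1)
    (hD : ∀ s ∈ ({a, b, c, d} : Set G), ∀ t ∈ ({a, b, c, d} : Set G), ∀ g : G, (s * (g⁻¹ * t * g)) ^ 4 = 1) :
    Finite (Subgroup.closure ({a, b, c, d} : Set G)) := by
  have main : ∀ a b c d : G, a ^ 2 = 1 → b ^ 2 = 1 → c ^ 2 = 1 → d ^ 2 = 1 → (a * b * c * d) ^ 2 = 1 →
      (∀ s ∈ ({a, b, c, d} : Set G), ∀ t ∈ ({a, b, c, d} : Set G), ∀ g : G, (s * (g⁻¹ * t * g)) ^ 4 = 1) →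
      ∃ S : Set G, S.Finite ∧ a ∈ S ∧ ∀ y ∈ ({a, b, c, d} : Set G), ∀ v ∈ S, cj y v ∈ S := by
    intro a b c d ha hb hc hd hQ hD
    have hmem : ∀ s, f4 a b c d s ∈ ({a, b, c, d} : Set G) := by
      intro s
      unfold f4
      split <;> simp
    have hf : ∀ s, f4 a b c d s * f4 a b c d s = 1 := by
      intro s
      rw [← pow_two]
      unfold f4
      split
      · exact ha
      · exact hb
      · exact hc
      · exact hd
    obtain ⟨S, hS1, _, hS2, hS3⟩ := class_finite (f4 a b c d) hf (fun s t g => hD _ (hmem s) _ (hmem t) g) hQ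
    refine ⟨S, hS1, hS2, ?_⟩
    intro y hy v hv
    rcases hy with rfl | rfl | rfl | rfl
    · exact hS3 0 (by norm_num) v hv
    · exact hS3 1 (by norm_num) v hv
    · exact hS3 2 (by norm_num) v hv
    · exact hS3 3 (by norm_num) v hv
  have rot : ∀ a b c d : G, a ^ 2 = 1 → (a * b * c * d) ^ 2 = 1 → (b * c * d * a) ^ 2 = 1 := by
    intro a b c d ha hQ
    have h1 : (b * c * d * a) ^ 2 = a⁻¹ * (a * b * c * d) ^ 2 * a := by
      rw [pow_two, pow_two]
      group
    rw [h1, hQ]
    group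
  have perm : ∀ a b c d : G, ({b, c, d, a} : Set G) = {a, b, c, d} := by
    intro a b c d
    ext x
    simp only [Set.mem_insert_iff, Set.mem_singleton_iff]
    tauto
  refine finite_closure _ (by simp) ?_ ?_
  · intro x hx
    rw [← pow_two]
    rcases hx with rfl | rfl | rfl | rfl
    · exact ha
    · exact hb
    · exact hc
    · exact hd
  · have e1 := perm a b c d
    have e2 := perm b c d a
    have e3 := perm c d a b
    have q1 := rot a b c d ha hQ
    have q2 := rot b c d a hb q1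
    have q3 := rot c d a b hc q2
    intro x hx
    rcases hx with rfl | rfl | rfl | rfl
    · exact main _ b c d ha hb hc hd hQ hD
    · rw [← e1]
      exact main _ c d a hb hc hd ha q1 (by rw [e1]; exact hD)
    · rw [← e1, ← e2]
      exact main _ d a b hc hd ha hb q2 (by rw [e2, e1]; exact hD)
    · rw [← e1, ← e2, ← e3]
      exact main _ a b c hd ha hb hc q3 (by rw [e3, e2, e1]; exact hD)

end Pool.Agent.Helper9.EQ
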