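import Pool.Agent.Helper9.EQ.Engel

/-!
# Left 3-Engel involutions `x` and finite subgroups `F` with a cyclic orbit `x^F` of length at most 4
-/

namespace Pool.Agent.Helper9.EQ

variable {G : Type*} [Group G]

/-- a finite subgroup which normalises a finite subgroup generates a finite subgroup together with it -/
theorem finite_join (F N : Subgroup G) (hF : Finite F) (hN : Finite N) (h : ∀ f ∈ F, ∀ n ∈ N, f⁻¹ * n * f ∈ N) :
    Finite (F ⊔ N : Subgroup G) := by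
  obtain ⟨S, hS⟩ : ∃ S : Set G, S = {z | ∃ f ∈ F, ∃ n ∈ N, z = f * n} := ⟨_, rfl⟩
  have hSfin : S.Finite := by
    have hNf : (N : Set G).Finite := hN
    have hFf : (F : Set G).Finite := hF
    have h1 : S ⊆ (fun z : G × G => z.1 * z.2) '' ((F : Set G) ×ˢ (N : Set G)) := by
      rintro z hz
      rw [hS] at hz
      obtain ⟨f, hf, n, hn, rfl⟩ := hz
      exact ⟨(f, n), ⟨hf, hn⟩, rfl⟩
    exact ((hFf.prod hNf).image _).subset h1
  have hsub : ((F ⊔ N : Subgroup G) : Set G) ⊆ S := by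
    intro z hz
    rw [SetLike.mem_coe, Subgroup.sup_eq_closure] at hz
    induction hz using Subgroup.closure_induction with
    | mem y hy =>
      rw [hS]
      rcases hy with hy | hy
      · exact ⟨y, hy, 1, N.one_mem, by rw [mul_one]⟩
      · exact ⟨1, F.one_mem, y, hy, by rw [one_mul]⟩
    | one =>
      rw [hS]
      exact ⟨1, F.one_mem, 1, N.one_mem, by rw [one_mul]⟩
    | mul u v _ _ hu hv =>
      rw [hS] at hu hv ⊢
      obtain ⟨f, hf, n, hn, rfl⟩ := hu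
      obtain ⟨f', hf', n', hn', rfl⟩ := hv
      refine ⟨f * f', F.mul_mem hf hf', f'⁻¹ * n * f' * n', N.mul_mem (h f' hf' n hn) hn', ?_⟩
      group
    | inv u _ hu =>
      rw [hS] at hu ⊢
      obtain ⟨f, hf, n, hn, rfl⟩ := hu
      refine ⟨f⁻¹, F.inv_mem hf, f * n⁻¹ * f⁻¹, ?_, ?_⟩
      · have := h f⁻¹ (F.inv_mem hf) n⁻¹ (N.inv_mem hn)
        rw [inv_inv] at this
        exact this
      · group
  exact (hSfin.subset hsub).to_subtype

/-- a left 3-Engel involution `x` and a finite subgroup `F` generate a finite group, if some `f ∈ F` satisfies `[x, f⁴] = 1`,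
`(xf)⁸ = f⁸` and every `F`-conjugate of `x` is conjugate to `x` under `⟨f⟩` -/
theorem orbit_engel (x : G) (hx : x ^ 2 = 1) (hE : ∀ g : G, cm (cm (cm g x) x) x = 1) (F : Subgroup G) (hF : Finite F)
    (g : G) (hgF : g ∈ F) (hg : g ^ 4 * x = x * g ^ 4) (hxg : (x * g) ^ 8 = g ^ 8)
    (horb : ∀ h ∈ F, ∃ i : ℕ, h⁻¹ * x * h = (g ^ i)⁻¹ * x * g ^ i) :
    Finite (Subgroup.closure ((F : Set G) ∪ {x})) := by
  obtain ⟨y, hy⟩ : ∃ y : ℕ → G, ∀ i, y i = (g ^ i)⁻¹ * x * g ^ i := ⟨fun i => (g ^ i)⁻¹ * x * g ^ i, fun i => rfl⟩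
  have hper : ∀ i, y (i + 4) = y i := by
    intro i
    rw [hy, hy, show i + 4 = 4 + i by omega, pow_add, mul_inv_rev]
    have h1 : (g ^ i)⁻¹ * (g ^ 4)⁻¹ * x * (g ^ 4 * g ^ i) = (g ^ i)⁻¹ * ((g ^ 4)⁻¹ * (x * g ^ 4)) * g ^ i := by
      simp only [mul_assoc]
    rw [h1, ← hg, inv_mul_cancel_left]
  have hmod : ∀ i, y i = y (i % 4) := by
    intro i
    induction i using Nat.strong_induction_on with
    | _ i ih =>
      rcases lt_or_ge i 4 with h | h
      · rw [Nat.mod_eq_of_lt h]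
      · obtain ⟨j, rfl⟩ : ∃ j, i = j + 4 := ⟨i - 4, by omega⟩
        rw [hper, ih j (by omega), Nat.add_mod_right]
  have hcomm : ∀ i, g ^ 4 * y i = y i * g ^ 4 := by
    intro i
    rw [hy]
    have h1 : (g ^ i)⁻¹ * x * g ^ i * g ^ 4 = (g ^ i)⁻¹ * (x * g ^ 4) * g ^ i := by
      rw [mul_assoc ((g ^ i)⁻¹ * x), ← pow_add, add_comm, pow_add]
      simp only [mul_assoc]
    rw [h1, ← hg]
    have h2 : g ^ 4 * (g ^ i)⁻¹ = (g ^ i)⁻¹ * g ^ 4 := by
      rw [eq_inv_mul_iff_mul_eq, ← mul_assoc, ← pow_add, add_comm, pow_add, mul_assoc, mul_inv_cancel, mul_one]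
    have h3 : g ^ 4 * ((g ^ i)⁻¹ * x * g ^ i) = g ^ 4 * (g ^ i)⁻¹ * x * g ^ i := by simp only [mul_assoc]
    rw [h3, h2]
    simp only [mul_assoc]
  have hneg : ∀ i, i ≤ 4 → g ^ i * x * (g ^ i)⁻¹ = y (4 - i) := by
    intro i hi
    rw [hy]
    have h1 : g ^ (4 - i) = (g ^ i)⁻¹ * g ^ 4 := by
      rw [eq_inv_mul_iff_mul_eq, ← pow_add]
      congr 1
      omega
    have h2 : g ^ (4 - i) = g ^ 4 * (g ^ i)⁻¹ := by
      rw [eq_mul_inv_iff_mul_eq, ← pow_add]
      congr 1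
      omega
    have h3 : (g ^ (4 - i))⁻¹ = g ^ i * (g ^ 4)⁻¹ := by
      rw [h2, mul_inv_rev, inv_inv]
    rw [h3]
    conv_rhs => rw [h2]
    have h4 : g ^ i * (g ^ 4)⁻¹ * x * (g ^ 4 * (g ^ i)⁻¹) = g ^ i * ((g ^ 4)⁻¹ * (x * g ^ 4)) * (g ^ i)⁻¹ := by
      simp only [mul_assoc]
    rw [h4, ← hg, inv_mul_cancel_left]
  have hprod : y 0 * y 3 * y 2 * y 1 * g ^ 4 = (x * g) ^ 4 := by
    have e3 := hneg 1 (by norm_num)
    have e2 := hneg 2 (by norm_num)
    have e1 := hneg 3 (by norm_num)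
    norm_num at e3 e2 e1
    rw [← e3, ← e2, ← e1, hy]
    simp only [pow_succ, pow_zero, one_mul, mul_inv_rev, inv_one, mul_one]
    group
  have hQ : (y 0 * y 3 * y 2 * y 1) ^ 2 = 1 := by
    obtain ⟨P, hP⟩ : ∃ P, P = y 0 * y 3 * y 2 * y 1 := ⟨_, rfl⟩
    have hPc : g ^ 4 * P = P * g ^ 4 := by
      rw [hP]
      calc g ^ 4 * (y 0 * y 3 * y 2 * y 1) = (g ^ 4 * y 0) * y 3 * y 2 * y 1 := by simp only [mul_assoc]
        _ = y 0 * (g ^ 4 * y 3) * y 2 * y 1 := by rw [hcomm 0]; simp only [mul_assoc]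
        _ = y 0 * y 3 * (g ^ 4 * y 2) * y 1 := by rw [hcomm 3]; simp only [mul_assoc]
        _ = y 0 * y 3 * y 2 * (g ^ 4 * y 1) := by rw [hcomm 2]; simp only [mul_assoc]
        _ = y 0 * y 3 * y 2 * y 1 * g ^ 4 := by rw [hcomm 1]; simp only [mul_assoc]
    rw [← hP] at hprod ⊢
    have h1 : (x * g) ^ 8 = P ^ 2 * g ^ 8 := by
      calc (x * g) ^ 8 = (x * g) ^ 4 * (x * g) ^ 4 := by rw [← pow_add]
        _ = P * (g ^ 4 * P) * g ^ 4 := by rw [← hprod]; simp only [mul_assoc]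
        _ = P * P * (g ^ 4 * g ^ 4) := by rw [hPc]; simp only [mul_assoc]
        _ = P ^ 2 * g ^ 8 := by rw [← pow_add, pow_two]
    rw [hxg] at h1
    exact mul_eq_right.1 h1.symm
  obtain ⟨N, hN⟩ : ∃ N : Subgroup G, N = Subgroup.closure ({y 0, y 3, y 2, y 1} : Set G) := ⟨_, rfl⟩
  have hNfin : Finite N := by
    rw [hN]
    simp only [hy] at hQ ⊢
    exact four_engel x hx hE _ _ _ _ hQ
  have hyN : ∀ i, y i ∈ N := by
    intro i
    rw [hmod i, hN]
    have h4 : i % 4 < 4 := Nat.mod_lt _ (by norm_num)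
    apply Subgroup.subset_closure
    generalize i % 4 = k at h4
    interval_cases k <;> simp
  have hxN : x ∈ N := by
    have := hyN 0
    rw [hy] at this
    simpa using this
  have hconj : ∀ h ∈ F, ∀ i, h⁻¹ * y i * h ∈ N := by
    intro h hh i
    obtain ⟨j, hj⟩ := horb (g ^ i * h) (F.mul_mem (F.pow_mem hgF i) hh)
    have h1 : h⁻¹ * y i * h = y j := by
      rw [hy, hy, ← hj]
      group
    rw [h1]
    exact hyN j
  have hNF : ∀ f ∈ F, ∀ n ∈ N, f⁻¹ * n * f ∈ N := by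
    intro f hf n hn
    rw [hN] at hn
    induction hn using Subgroup.closure_induction with
    | mem z hz =>
      rcases hz with rfl | rfl | rfl | rfl <;> exact hconj f hf _
    | one =>
      rw [mul_one, inv_mul_cancel]
      exact N.one_mem
    | mul u v _ _ hu hv =>
      have : f⁻¹ * (u * v) * f = f⁻¹ * u * f * (f⁻¹ * v * f) := by group
      rw [this]
      exact N.mul_mem hu hv
    | inv u _ hu =>
      have : f⁻¹ * u⁻¹ * f = (f⁻¹ * u * f)⁻¹ := by group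
      rw [this]
      exact N.inv_mem hu
  have hfin := finite_join F N hF hNfin hNF
  have hle : Subgroup.closure ((F : Set G) ∪ {x}) ≤ F ⊔ N := by
    rw [Subgroup.closure_le]
    rintro z (hz | rfl)
    · exact (le_sup_left : F ≤ F ⊔ N) hz
    · exact (le_sup_right : N ≤ F ⊔ N) hxN
  exact Finite.of_injective _ (Subgroup.inclusion_injective hle)

end Pool.Agent.Helper9.EQ
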